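import Pool.Agent.H385R2.Cut

/-!
TEAM Q, project CYC, task C1 (helper873): the functions `bt` are almost orthogonal.
-/

open Complex Filter Topology Set MeasureTheory

namespace H385

open Cut

namespace Cyc1

/-- the integrand after the shift -/
noncomputable def hx (x a : ℝ) : ℂ := (Real.exp (-(1 / 4) * a ^ 2) : ℂ) * cexp (I * (a / 2) * x)

theorem hx_cont (x : ℝ) : Continuous (hx x) := by
  unfold hx
  fun_prop

theorem hx_norm (x a : ℝ) : ‖hx x a‖ = Real.exp (-(1 / 4) * a ^ 2) := by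
  unfold hx
  rw [norm_mul, Complex.norm_real, Real.norm_of_nonneg (Real.exp_pos _).le]
  have : (I * (a / 2) * x : ℂ) = ((a / 2 * x : ℝ) : ℂ) * I := by
    push_cast; ring
  rw [this, Complex.norm_exp_ofReal_mul_I, mul_one]

/-- the shifted inner integral -/
noncomputable def GG (T x t : ℝ) : ℂ := ∫ a in (T - t)..(2 * T - t), hx x a

theorem JJ_shift (T u t ℓ : ℝ) :
    Cut.JJ T u t ℓ = cexp (I * t * (u - ℓ)) * GG T (u - ℓ) t := by
  unfold Cut.JJ GG
  rw [← intervalIntegral.integral_comp_sub_right (fun a => hx (u - ℓ) a) t,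
    ← intervalIntegral.integral_const_mul]
  congr 1
  ext τ
  unfold hx
  have e1 : (-(t - τ) ^ 2 / 4 : ℝ) = -(1 / 4) * (τ - t) ^ 2 := by ring
  rw [e1, mul_left_comm, ← Complex.exp_add]
  congr 2
  push_cast
  ring

theorem GG_conj (T x t : ℝ) (hT : 0 ≤ T) : (starRingEnd ℂ) (GG T x t) = GG T (-x) t := by
  unfold GG
  rw [intervalIntegral.integral_of_le (by linarith), intervalIntegral.integral_of_le (by linarith),
    ← integral_conj]
  congr 1
  ext a
  unfold hx
  rw [map_mul, Complex.conj_ofReal, ← Complex.exp_conj]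
  congr 2
  have h2 : (starRingEnd ℂ) (2 : ℂ) = 2 := map_ofNat _ 2
  simp only [map_mul, map_div₀, Complex.conj_I, Complex.conj_ofReal, h2]
  push_cast
  ring

theorem GG_deriv (T x t : ℝ) : HasDerivAt (GG T x) (hx x (T - t) - hx x (2 * T - t)) t := by
  have hc := hx_cont x
  have h0 : ∀ y : ℝ, HasDerivAt (fun y => ∫ a in (0:ℝ)..y, hx x a) (hx x y) y := fun y =>
    intervalIntegral.integral_hasDerivAt_right (hc.intervalIntegrable _ _)
      hc.stronglyMeasurable.stronglyMeasurableAtFilter hc.continuousAt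
  have h1 : HasDerivAt (fun t : ℝ => ∫ a in (0:ℝ)..(2 * T - t), hx x a) (-hx x (2 * T - t)) t := by
    have h := (h0 (2 * T - t)).scomp t ((hasDerivAt_id t).const_sub (2 * T))
    rw [neg_one_smul] at h
    exact h
  have h2 : HasDerivAt (fun t : ℝ => ∫ a in (0:ℝ)..(T - t), hx x a) (-hx x (T - t)) t := by
    have h := (h0 (T - t)).scomp t ((hasDerivAt_id t).const_sub T)
    rw [neg_one_smul] at h
    exact h
  have h3 := h1.sub h2
  have e : GG T x = fun t : ℝ => (∫ a in (0:ℝ)..(2 * T - t), hx x a) -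
      ∫ a in (0:ℝ)..(T - t), hx x a := by
    ext t
    unfold GG
    rw [intervalIntegral.integral_interval_sub_left (hc.intervalIntegrable _ _)
      (hc.intervalIntegrable _ _)]
  rw [e]
  refine h3.congr_deriv ?_
  ring

theorem GG_norm (T x t : ℝ) (hT : 0 ≤ T) : ‖GG T x t‖ ≤ 2 * Real.sqrt Real.pi := by
  unfold GG
  refine (intervalIntegral.norm_integral_le_integral_norm (by linarith)).trans ?_
  have e : (fun a => ‖hx x a‖) = fun a : ℝ => Real.exp (-(1 / 4) * (a - 0) ^ 2) := by
    ext a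
    rw [hx_norm, sub_zero]
  rw [e, ← sqrt_pi_quarter, ← integral_gauss_shift (1 / 4) 0]
  exact interval_le (int_gauss_shift Cut.hq 0) (fun τ => (Real.exp_pos _).le) (by linarith)

theorem GG_wt (T x t : ℝ) (hT : 0 ≤ T) : ‖GG T x t‖ ≤ 2 * Real.sqrt Real.pi * wt T t := by
  unfold GG
  refine (intervalIntegral.norm_integral_le_integral_norm (by linarith)).trans ?_
  have e : (fun a => ‖hx x a‖) = fun a : ℝ => Real.exp (-(1 / 4) * a ^ 2) := by
    ext a
    rw [hx_norm]
  rw [e, Cut.wt_eq, ← intervalIntegral.integral_comp_sub_right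
    (fun a : ℝ => Real.exp (-(1 / 4) * a ^ 2)) t]
  have := sqrt_pi_pos
  rw [← mul_assoc, mul_one_div_cancel (by positivity), one_mul]

end Cyc1

open Cyc1

/-- C1: the functions `bt` are almost orthogonal -/
theorem bt_cross : ∃ C : ℝ, 0 < C ∧ ∀ (T u ℓ ℓ' : ℝ), 0 ≤ T → ℓ ≠ ℓ' →
    Integrable (fun t : ℝ => bt T u t ℓ * (starRingEnd ℂ) (bt T u t ℓ')) ∧
    ‖∫ t : ℝ, bt T u t ℓ * (starRingEnd ℂ) (bt T u t ℓ')‖ ≤
      C * (Real.exp (-(u - ℓ) ^ 2 / 4) * Real.exp (-(u - ℓ') ^ 2 / 4)) / |ℓ - ℓ'| := by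
  set k : ℝ := 1 / (2 * Real.sqrt Real.pi) * (1 / Real.sqrt (2 * Real.pi)) with hk
  have hk0 : 0 < k := by
    have := sqrt_pi_pos
    have := sqrt_2pi_pos
    positivity
  refine ⟨k ^ 2 * (16 * Real.pi), by positivity, ?_⟩
  intro T u ℓ ℓ' hT hne
  set x : ℝ := u - ℓ with hx'
  set x' : ℝ := u - ℓ' with hx''
  set d : ℝ := x - x' with hd
  have hd0 : d ≠ 0 := by
    rw [hd, hx', hx'']
    intro h
    exact hne (by linarith)
  have hdc : (I * d : ℂ) ≠ 0 := mul_ne_zero I_ne_zero (by exact_mod_cast hd0)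
  have hsp := sqrt_pi_pos
  have hspp : Real.sqrt Real.pi * Real.sqrt Real.pi = Real.pi :=
    Real.mul_self_sqrt Real.pi_pos.le
  -- the product
  set P : ℝ → ℂ := fun t => GG T x t * GG T (-x') t with hP
  set P' : ℝ → ℂ := fun t => (hx x (T - t) - hx x (2 * T - t)) * GG T (-x') t +
    GG T x t * (hx (-x') (T - t) - hx (-x') (2 * T - t)) with hP'
  have hPd : ∀ t, HasDerivAt P (P' t) t := fun t => (GG_deriv T x t).mul (GG_deriv T (-x') t)
  have hGc : ∀ y, Continuous (GG T y) := fun y =>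
    continuous_iff_continuousAt.mpr fun t => (GG_deriv T y t).continuousAt
  have hPc : Continuous P := (hGc x).mul (hGc (-x'))
  have hP'c : Continuous P' := by
    have h1 := hx_cont x
    have h2 := hx_cont (-x')
    have h3 := hGc x
    have h4 := hGc (-x')
    exact ((((h1.comp (continuous_const.sub continuous_id)).sub
      (h1.comp (continuous_const.sub continuous_id))).mul h4).add
      (h3.mul ((h2.comp (continuous_const.sub continuous_id)).sub
      (h2.comp (continuous_const.sub continuous_id)))))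
  have hprod : ∀ t, bt T u t ℓ * (starRingEnd ℂ) (bt T u t ℓ') =
      ((k ^ 2 * (Real.exp (-x ^ 2 / 4) * Real.exp (-x' ^ 2 / 4)) : ℝ) : ℂ) *
        (P t * cexp (I * d * t)) := by
    intro t
    rw [Cut.bt_eq, Cut.bt_eq, ← hk, map_mul, Complex.conj_ofReal, JJ_shift, JJ_shift, map_mul]
    have e1 : ((u:ℂ) - (ℓ:ℂ)) = ((x : ℝ) : ℂ) := by rw [hx']; push_cast; ring
    have e2 : ((u:ℂ) - (ℓ':ℂ)) = ((x' : ℝ) : ℂ) := by rw [hx'']; push_cast; ring
    rw [← hx', ← hx'', GG_conj T x' t hT, e1, e2, ← Complex.exp_conj]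
    have e3 : (starRingEnd ℂ) (I * t * x') = -(I * t * x') := by
      simp only [map_mul, Complex.conj_I, Complex.conj_ofReal]
      ring
    rw [e3]
    have e4 : cexp (I * d * t) = cexp (I * t * x) * cexp (-(I * t * x')) := by
      rw [← Complex.exp_add]
      congr 1
      rw [hd]
      push_cast
      ring
    rw [e4, hP]
    push_cast
    ring
  have hen : ∀ t : ℝ, ‖cexp (I * d * t)‖ = 1 := by
    intro t
    have : (I * d * t : ℂ) = ((d * t : ℝ) : ℂ) * I := by push_cast; ring
    rw [this, Complex.norm_exp_ofReal_mul_I]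
  have hec : Continuous (fun t : ℝ => cexp (I * d * t)) := by fun_prop
  -- integrability
  have hPi : Integrable P := by
    refine Integrable.mono' ((wt_integrable T hT).const_mul
      (2 * Real.sqrt Real.pi * (2 * Real.sqrt Real.pi))) hPc.aestronglyMeasurable
      (Eventually.of_forall fun t => ?_)
    rw [hP, norm_mul]
    calc ‖GG T x t‖ * ‖GG T (-x') t‖ ≤ (2 * Real.sqrt Real.pi * wt T t) * (2 * Real.sqrt Real.pi) :=
          mul_le_mul (GG_wt T x t hT) (GG_norm T (-x') t hT) (norm_nonneg _)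
            (mul_nonneg (by positivity) (wt_nonneg T t hT))
      _ = _ := by ring
  have hgi : Integrable (fun t : ℝ => Real.exp (-(1 / 4) * (t - T) ^ 2) +
      Real.exp (-(1 / 4) * (t - 2 * T) ^ 2)) :=
    (int_gauss_shift Cut.hq T).add (int_gauss_shift Cut.hq (2 * T))
  have hhn : ∀ y t : ℝ, ‖hx y (T - t) - hx y (2 * T - t)‖ ≤
      Real.exp (-(1 / 4) * (t - T) ^ 2) + Real.exp (-(1 / 4) * (t - 2 * T) ^ 2) := by
    intro y t
    refine (norm_sub_le _ _).trans (le_of_eq ?_)
    rw [hx_norm, hx_norm]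
    congr 2 <;> ring
  have hP'n : ∀ t, ‖P' t‖ ≤ 4 * Real.sqrt Real.pi * (Real.exp (-(1 / 4) * (t - T) ^ 2) +
      Real.exp (-(1 / 4) * (t - 2 * T) ^ 2)) := by
    intro t
    have hE : 0 ≤ Real.exp (-(1 / 4) * (t - T) ^ 2) + Real.exp (-(1 / 4) * (t - 2 * T) ^ 2) := by
      positivity
    rw [hP']
    refine (norm_add_le _ _).trans ?_
    rw [norm_mul, norm_mul]
    have a1 := mul_le_mul (hhn x t) (GG_norm T (-x') t hT) (norm_nonneg _) hE
    have a2 := mul_le_mul (GG_norm T x t hT) (hhn (-x') t) (norm_nonneg _)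
      (by positivity : (0:ℝ) ≤ 2 * Real.sqrt Real.pi)
    linarith
  have hP'i : Integrable P' :=
    Integrable.mono' (hgi.const_mul _) hP'c.aestronglyMeasurable (Eventually.of_forall hP'n)
  have hPei : Integrable (fun t => P t * cexp (I * d * t)) := by
    refine Integrable.mono' hPi.norm (hPc.mul hec).aestronglyMeasurable
      (Eventually.of_forall fun t => ?_)
    rw [norm_mul, hen, mul_one]
  have hP'ei : Integrable (fun t => P' t * (cexp (I * d * t) / (I * d))) := by
    have : Integrable (fun t => P' t * cexp (I * d * t)) := by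
      refine Integrable.mono' hP'i.norm (hP'c.mul hec).aestronglyMeasurable
        (Eventually.of_forall fun t => ?_)
      rw [norm_mul, hen, mul_one]
    refine (this.div_const (I * d)).congr (Eventually.of_forall fun t => ?_)
    simp only
    ring
  have hPei2 : Integrable (fun t => P t * (cexp (I * d * t) / (I * d))) := by
    refine (hPei.div_const (I * d)).congr (Eventually.of_forall fun t => ?_)
    simp only
    ring
  have hed : ∀ t : ℝ, HasDerivAt (fun t : ℝ => cexp (I * d * t) / (I * d)) (cexp (I * d * t)) t := by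
    intro t
    have h1 : HasDerivAt (fun t : ℝ => (I * d * t : ℂ)) (I * d) t := by
      simpa using (Complex.ofRealCLM.hasDerivAt (x := t)).const_mul (I * d : ℂ)
    have h2 := (h1.cexp).div_const (I * d)
    refine h2.congr_deriv ?_
    exact mul_div_cancel_right₀ _ hdc
  have hibp := integral_mul_deriv_eq_deriv_mul_of_integrable
    (fun t _ => hPd t) (fun t _ => hed t) hPei hP'ei hPei2
  have hbound : ‖∫ t : ℝ, P t * cexp (I * d * t)‖ ≤ 16 * Real.pi / |d| := by
    rw [hibp, norm_neg]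
    have h1 : ‖∫ t : ℝ, P' t * (cexp (I * d * t) / (I * d))‖ ≤
        ∫ t : ℝ, (4 * Real.sqrt Real.pi / |d|) * (Real.exp (-(1 / 4) * (t - T) ^ 2) +
          Real.exp (-(1 / 4) * (t - 2 * T) ^ 2)) := by
      refine norm_integral_le_of_norm_le (hgi.const_mul _) (Eventually.of_forall fun t => ?_)
      rw [norm_mul, norm_div, hen, norm_mul, Complex.norm_I, one_mul, Complex.norm_real,
        Real.norm_eq_abs]
      have := mul_le_mul_of_nonneg_right (hP'n t) (by positivity : (0:ℝ) ≤ 1 / |d|)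
      refine this.trans (le_of_eq ?_)
      ring
    refine h1.trans (le_of_eq ?_)
    rw [integral_const_mul, integral_add (int_gauss_shift Cut.hq T)
      (int_gauss_shift Cut.hq (2 * T)), integral_gauss_shift, integral_gauss_shift,
      sqrt_pi_quarter]
    calc 4 * Real.sqrt Real.pi / |d| * (2 * Real.sqrt Real.pi + 2 * Real.sqrt Real.pi)
        = 16 * (Real.sqrt Real.pi * Real.sqrt Real.pi) / |d| := by ring
      _ = 16 * Real.pi / |d| := by rw [hspp]
  have hfun : (fun t : ℝ => bt T u t ℓ * (starRingEnd ℂ) (bt T u t ℓ')) = fun t : ℝ =>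
      ((k ^ 2 * (Real.exp (-x ^ 2 / 4) * Real.exp (-x' ^ 2 / 4)) : ℝ) : ℂ) *
        (P t * cexp (I * d * t)) := by
    ext t
    exact hprod t
  rw [hfun]
  refine ⟨hPei.const_mul _, ?_⟩
  rw [integral_const_mul, norm_mul, Complex.norm_real, Real.norm_of_nonneg (by positivity)]
  have hdd : |ℓ - ℓ'| = |d| := by
    rw [hd, hx', hx'', ← abs_neg]
    congr 1
    ring
  rw [hdd]
  calc k ^ 2 * (Real.exp (-x ^ 2 / 4) * Real.exp (-x' ^ 2 / 4)) *
        ‖∫ t : ℝ, P t * cexp (I * d * t)‖
      ≤ k ^ 2 * (Real.exp (-x ^ 2 / 4) * Real.exp (-x' ^ 2 / 4)) * (16 * Real.pi / |d|) :=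
        mul_le_mul_of_nonneg_left hbound (by positivity)
    _ = _ := by ring

end H385
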