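import Mathlib

/-!
TEAM Q, project CYC, task C2: the off-diagonal terms for one modulus `q`.
-/

open Finset

namespace H385

namespace Cyc2

/-- the majorant `min(1, X² / n²)`, `X = e^u` -/
noncomputable def hh (u : ℝ) (n : ℕ) : ℝ := min 1 (Real.exp (2 * u) / (n : ℝ) ^ 2)

theorem hh_nonneg (u : ℝ) (n : ℕ) : 0 ≤ hh u n := by
  unfold hh
  exact le_min zero_le_one (by positivity)

theorem hh_anti (u : ℝ) {m n : ℕ} (hm : 1 ≤ m) (h : m ≤ n) : hh u n ≤ hh u m := by
  unfold hh
  have hm' : (0:ℝ) < m := by exact_mod_cast hm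
  have h' : (m:ℝ) ≤ n := by exact_mod_cast h
  refine min_le_min le_rfl ?_
  gcongr

/-- The weight of one prime power. -/
theorem wt_le {u : ℝ} (hu : 0 ≤ u) {n : ℕ} (hn : 1 ≤ n) :
    ArithmeticFunction.vonMangoldt n * Real.exp (-(u - Real.log n) ^ 2 / 4) *
      Real.exp (|u - Real.log n| / 2) ≤ Real.exp 13 * (u + 1) * hh u n := by
  have hn' : (0:ℝ) < n := by exact_mod_cast hn
  set y : ℝ := u - Real.log n with hy
  have hlog : Real.log n = u - y := by rw [hy]; ring
  have h1 : ArithmeticFunction.vonMangoldt n ≤ (u + 1) * Real.exp |y| := by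
    refine ArithmeticFunction.vonMangoldt_le_log.trans ?_
    rw [hlog]
    have h2 : 1 + |y| ≤ Real.exp |y| := by linarith [Real.add_one_le_exp |y|]
    have h3 : -y ≤ |y| := neg_le_abs y
    have h4 : 0 ≤ |y| := abs_nonneg y
    nlinarith
  have h5 : Real.exp (3 * |y| / 2 - y ^ 2 / 4) ≤ Real.exp 13 * hh u n := by
    have e1 : Real.exp (2 * u) / (n:ℝ) ^ 2 = Real.exp (2 * y) := by
      have : (n:ℝ) ^ 2 = Real.exp (2 * Real.log n) := by
        rw [two_mul, Real.exp_add, Real.exp_log hn']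
        ring
      rw [this, ← Real.exp_sub, hlog]
      congr 1
      ring
    unfold hh
    rw [e1, mul_min_of_nonneg _ _ (Real.exp_pos _).le, mul_one, ← Real.exp_add]
    refine le_min (Real.exp_le_exp.2 ?_) (Real.exp_le_exp.2 ?_)
    · rcases abs_cases y with ⟨h, _⟩ | ⟨h, _⟩ <;> rw [h] <;> nlinarith [sq_nonneg (y - 3),
        sq_nonneg (y + 3)]
    · rcases abs_cases y with ⟨h, _⟩ | ⟨h, _⟩ <;> rw [h] <;> nlinarith [sq_nonneg (y - 3),
        sq_nonneg (y + 7)]
  calc ArithmeticFunction.vonMangoldt n * Real.exp (-y ^ 2 / 4) * Real.exp (|y| / 2)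
      ≤ (u + 1) * Real.exp |y| * Real.exp (-y ^ 2 / 4) * Real.exp (|y| / 2) := by gcongr
    _ = (u + 1) * Real.exp (3 * |y| / 2 - y ^ 2 / 4) := by
        rw [mul_assoc, mul_assoc, ← Real.exp_add, ← Real.exp_add]
        congr 2
        ring
    _ ≤ (u + 1) * (Real.exp 13 * hh u n) := by gcongr
    _ = _ := by ring

/-- One term, `n < m`. -/
theorem term_le {u : ℝ} (hu : 0 ≤ u) {n m : ℕ} (hn : 1 ≤ n) (hnm : n < m) :
    ArithmeticFunction.vonMangoldt n * ArithmeticFunction.vonMangoldt m /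
          (Real.sqrt n * Real.sqrt m) *
          (Real.exp (-(u - Real.log n) ^ 2 / 4) * Real.exp (-(u - Real.log m) ^ 2 / 4)) /
          |Real.log n - Real.log m| ≤
      (Real.exp 13 * (u + 1)) ^ 2 * (hh u n * (hh u m / ((m:ℝ) - n))) := by
  have hn' : (0:ℝ) < n := by exact_mod_cast hn
  have hm' : (0:ℝ) < m := by exact_mod_cast (hn.trans hnm.le)
  have hnm' : (n:ℝ) < m := by exact_mod_cast hnm
  have hd : (0:ℝ) < (m:ℝ) - n := by linarith
  have hlog : Real.log n < Real.log m := Real.log_lt_log hn' hnm'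
  have e1 : |Real.log n - Real.log m| = Real.log m - Real.log n := by
    rw [abs_of_neg (by linarith)]; ring
  have h1 : ((m:ℝ) - n) / m ≤ Real.log m - Real.log n := by
    rw [← Real.log_div hm'.ne' hn'.ne']
    have := Real.one_sub_inv_le_log_of_pos (show (0:ℝ) < m / n by positivity)
    refine le_trans (le_of_eq ?_) this
    field_simp
  have key : 1 / (Real.sqrt n * Real.sqrt m * |Real.log n - Real.log m|) ≤
      Real.exp (|u - Real.log n| / 2) * Real.exp (|u - Real.log m| / 2) / ((m:ℝ) - n) := by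
    rw [e1]
    have s1 : Real.sqrt n = Real.exp (Real.log n / 2) := by
      rw [Real.exp_half, Real.exp_log hn']
    have s2 : Real.sqrt m = Real.exp (Real.log m / 2) := by
      rw [Real.exp_half, Real.exp_log hm']
    calc 1 / (Real.sqrt n * Real.sqrt m * (Real.log m - Real.log n))
        ≤ 1 / (Real.sqrt n * Real.sqrt m * (((m:ℝ) - n) / m)) := by
          have : 0 < Real.sqrt n * Real.sqrt m := by positivity
          gcongr
      _ = Real.exp ((Real.log m - Real.log n) / 2) / ((m:ℝ) - n) := by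
          have e2 : Real.exp ((Real.log m - Real.log n) / 2) = Real.sqrt m / Real.sqrt n := by
            rw [s1, s2, ← Real.exp_sub]
            congr 1
            ring
          rw [e2]
          have e3 : (m:ℝ) = Real.sqrt m * Real.sqrt m := (Real.mul_self_sqrt hm'.le).symm
          have p1 : 0 < Real.sqrt n := Real.sqrt_pos.2 hn'
          have p2 : 0 < Real.sqrt m := Real.sqrt_pos.2 hm'
          rw [div_div, one_div, mul_div_assoc', inv_div, div_eq_div_iff (by positivity)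
            (by positivity)]
          nth_rewrite 1 [e3]
          ring
      _ ≤ Real.exp (|u - Real.log n| / 2 + |u - Real.log m| / 2) / ((m:ℝ) - n) := by
          have : (Real.log m - Real.log n) / 2 ≤ |u - Real.log n| / 2 + |u - Real.log m| / 2 := by
            have a1 := le_abs_self (u - Real.log n)
            have a2 := neg_le_abs (u - Real.log m)
            linarith
          gcongr
      _ = _ := by rw [Real.exp_add]
  have hΛn : 0 ≤ ArithmeticFunction.vonMangoldt n := ArithmeticFunction.vonMangoldt_nonneg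
  have hΛm : 0 ≤ ArithmeticFunction.vonMangoldt m := ArithmeticFunction.vonMangoldt_nonneg
  have w1 := wt_le hu hn
  have w2 := wt_le hu (hn.trans hnm.le)
  have hnn : 0 ≤ Real.exp 13 * (u + 1) * hh u n := by
    have := hh_nonneg u n
    positivity
  calc ArithmeticFunction.vonMangoldt n * ArithmeticFunction.vonMangoldt m /
          (Real.sqrt n * Real.sqrt m) *
          (Real.exp (-(u - Real.log n) ^ 2 / 4) * Real.exp (-(u - Real.log m) ^ 2 / 4)) /
          |Real.log n - Real.log m|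
      = (ArithmeticFunction.vonMangoldt n * Real.exp (-(u - Real.log n) ^ 2 / 4)) *
        (ArithmeticFunction.vonMangoldt m * Real.exp (-(u - Real.log m) ^ 2 / 4)) *
        (1 / (Real.sqrt n * Real.sqrt m * |Real.log n - Real.log m|)) := by
        rw [div_mul_eq_mul_div, div_div, mul_one_div]
        congr 1
        ring
    _ ≤ (ArithmeticFunction.vonMangoldt n * Real.exp (-(u - Real.log n) ^ 2 / 4)) *
        (ArithmeticFunction.vonMangoldt m * Real.exp (-(u - Real.log m) ^ 2 / 4)) *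
        (Real.exp (|u - Real.log n| / 2) * Real.exp (|u - Real.log m| / 2) / ((m:ℝ) - n)) := by
        gcongr
    _ = (ArithmeticFunction.vonMangoldt n * Real.exp (-(u - Real.log n) ^ 2 / 4) *
        Real.exp (|u - Real.log n| / 2)) *
        (ArithmeticFunction.vonMangoldt m * Real.exp (-(u - Real.log m) ^ 2 / 4) *
        Real.exp (|u - Real.log m| / 2)) / ((m:ℝ) - n) := by ring
    _ ≤ (Real.exp 13 * (u + 1) * hh u n) * (Real.exp 13 * (u + 1) * hh u m) / ((m:ℝ) - n) := by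
        gcongr
    _ = _ := by ring

/-- `∑ h(n) ≤ 3 e^u`. -/
theorem sum_hh {u : ℝ} (hu : 0 ≤ u) (N : ℕ) : ∑ n ∈ Icc 1 N, hh u n ≤ 3 * Real.exp u := by
  set X := Real.exp u with hX
  have hX1 : 1 ≤ X := Real.one_le_exp hu
  set M := ⌊X⌋₊ with hM
  have hM1 : 1 ≤ M := Nat.le_floor (by exact_mod_cast hX1)
  have hMX : (M:ℝ) ≤ X := Nat.floor_le (by positivity)
  have hXM : X < M + 1 := Nat.lt_floor_add_one X
  have hM0 : (0:ℝ) < M := by exact_mod_cast hM1
  have hM1' : (1:ℝ) ≤ M := by exact_mod_cast hM1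
  have hX2 : Real.exp (2 * u) = X ^ 2 := by rw [two_mul, Real.exp_add]; ring
  have hsub : Icc 1 N ⊆ Icc 1 M ∪ Ioc M (max M N) := by
    intro x hx
    rw [mem_Icc] at hx
    rw [mem_union, mem_Icc, mem_Ioc]
    by_cases h : x ≤ M
    · left; omega
    · right; exact ⟨by omega, le_max_of_le_right hx.2⟩
  have hdis : Disjoint (Icc 1 M) (Ioc M (max M N)) := by
    rw [Finset.disjoint_left]
    intro x hx hx'
    rw [mem_Icc] at hx
    rw [mem_Ioc] at hx'
    omega
  refine (Finset.sum_le_sum_of_subset_of_nonneg hsub (fun _ _ _ => hh_nonneg _ _)).trans ?_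
  rw [Finset.sum_union hdis]
  have h1 : ∑ n ∈ Icc 1 M, hh u n ≤ M := by
    refine (Finset.sum_le_sum (fun n _ => min_le_left 1 _)).trans ?_
    simp
  have h2 : ∑ n ∈ Ioc M (max M N), hh u n ≤ X ^ 2 * ((M:ℝ)⁻¹) := by
    calc ∑ n ∈ Ioc M (max M N), hh u n
        ≤ ∑ n ∈ Ioc M (max M N), X ^ 2 * ((n:ℝ) ^ 2)⁻¹ := by
          refine Finset.sum_le_sum fun n _ => ?_
          refine (min_le_right _ _).trans (le_of_eq ?_)
          rw [hX2]
          rfl
      _ = X ^ 2 * ∑ n ∈ Ioc M (max M N), ((n:ℝ) ^ 2)⁻¹ := by rw [Finset.mul_sum]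
      _ ≤ X ^ 2 * ((M:ℝ)⁻¹ - ((max M N : ℕ) : ℝ)⁻¹) := by
          have := sum_Ioc_inv_sq_le_sub (α := ℝ) (k := M) (n := max M N) (by omega)
            (le_max_left _ _)
          gcongr
      _ ≤ X ^ 2 * ((M:ℝ)⁻¹) := by
          have : (0:ℝ) ≤ ((max M N : ℕ) : ℝ)⁻¹ := by positivity
          have h0 : 0 ≤ X ^ 2 := by positivity
          nlinarith
  have h3 : X ^ 2 * ((M:ℝ)⁻¹) ≤ 2 * X := by
    rw [← div_eq_mul_inv, div_le_iff₀ hM0]
    nlinarith
  linarith

/-- `∑ h(j)/j ≤ u + 3`. -/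
theorem sum_hh_div {u : ℝ} (hu : 0 ≤ u) (N : ℕ) : ∑ n ∈ Icc 1 N, hh u n / n ≤ u + 3 := by
  set X := Real.exp u with hX
  have hX1 : 1 ≤ X := Real.one_le_exp hu
  set M := ⌊X⌋₊ with hM
  have hM1 : 1 ≤ M := Nat.le_floor (by exact_mod_cast hX1)
  have hMX : (M:ℝ) ≤ X := Nat.floor_le (by positivity)
  have hXM : X < M + 1 := Nat.lt_floor_add_one X
  have hM0 : (0:ℝ) < M := by exact_mod_cast hM1
  have hM1' : (1:ℝ) ≤ M := by exact_mod_cast hM1
  have hX2 : Real.exp (2 * u) = X ^ 2 := by rw [two_mul, Real.exp_add]; ring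
  have hsub : Icc 1 N ⊆ Icc 1 M ∪ Ioc M (max M N) := by
    intro x hx
    rw [mem_Icc] at hx
    rw [mem_union, mem_Icc, mem_Ioc]
    by_cases h : x ≤ M
    · left; omega
    · right; exact ⟨by omega, le_max_of_le_right hx.2⟩
  have hdis : Disjoint (Icc 1 M) (Ioc M (max M N)) := by
    rw [Finset.disjoint_left]
    intro x hx hx'
    rw [mem_Icc] at hx
    rw [mem_Ioc] at hx'
    omega
  refine (Finset.sum_le_sum_of_subset_of_nonneg hsub
    (fun _ _ _ => div_nonneg (hh_nonneg _ _) (Nat.cast_nonneg _))).trans ?_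
  rw [Finset.sum_union hdis]
  have h1 : ∑ n ∈ Icc 1 M, hh u n / n ≤ 1 + u := by
    have e1 : ∑ n ∈ Icc 1 M, hh u n / n ≤ ∑ n ∈ Icc 1 M, ((n:ℝ))⁻¹ := by
      refine Finset.sum_le_sum (fun n _ => ?_)
      rw [div_eq_mul_inv]
      have := min_le_left 1 (Real.exp (2 * u) / (n:ℝ) ^ 2)
      have h0 : (0:ℝ) ≤ (n:ℝ)⁻¹ := by positivity
      unfold hh
      nlinarith
    have e2 : ∑ n ∈ Icc 1 M, ((n:ℝ))⁻¹ = ((harmonic M : ℚ) : ℝ) := by
      rw [harmonic_eq_sum_Icc]
      push_cast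
      rfl
    have e3 := harmonic_le_one_add_log M
    have e4 : Real.log M ≤ u := by
      rw [← Real.log_exp u]
      exact Real.log_le_log hM0 hMX
    linarith
  have h2 : ∑ n ∈ Ioc M (max M N), hh u n / n ≤ X * ((M:ℝ)⁻¹) := by
    calc ∑ n ∈ Ioc M (max M N), hh u n / n
        ≤ ∑ n ∈ Ioc M (max M N), X * ((n:ℝ) ^ 2)⁻¹ := by
          refine Finset.sum_le_sum fun n hn => ?_
          rw [mem_Ioc] at hn
          have hn0 : (0:ℝ) < n := by
            have : 0 < n := by omega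
            exact_mod_cast this
          have hnX : X ≤ n := by
            have : (M:ℝ) + 1 ≤ n := by exact_mod_cast hn.1
            linarith
          have : hh u n ≤ X ^ 2 / (n:ℝ) ^ 2 := by
            rw [← hX2]
            exact min_le_right _ _
          calc hh u n / n ≤ (X ^ 2 / (n:ℝ) ^ 2) / n := by gcongr
            _ = X * ((n:ℝ) ^ 2)⁻¹ * (X / n) := by field_simp
            _ ≤ X * ((n:ℝ) ^ 2)⁻¹ * 1 := by
                have : X / n ≤ 1 := by rw [div_le_one hn0]; exact hnX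
                gcongr
            _ = _ := by ring
      _ = X * ∑ n ∈ Ioc M (max M N), ((n:ℝ) ^ 2)⁻¹ := by rw [Finset.mul_sum]
      _ ≤ X * ((M:ℝ)⁻¹ - ((max M N : ℕ) : ℝ)⁻¹) := by
          have := sum_Ioc_inv_sq_le_sub (α := ℝ) (k := M) (n := max M N) (by omega)
            (le_max_left _ _)
          gcongr
      _ ≤ X * ((M:ℝ)⁻¹) := by
          have : (0:ℝ) ≤ ((max M N : ℕ) : ℝ)⁻¹ := by positivity
          have h0 : 0 ≤ X := by positivity
          nlinarith
  have h3 : X * ((M:ℝ)⁻¹) ≤ 2 := by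
    rw [← div_eq_mul_inv, div_le_iff₀ hM0]
    nlinarith
  linarith

/-- Sum over `m > n`, `m ≡ n`. -/
theorem inner_le {u : ℝ} (hu : 0 ≤ u) {q : ℕ} (hq : 1 ≤ q) (N n : ℕ) :
    ∑ m ∈ Icc 1 N, (if n < m ∧ (n : ZMod q) = (m : ZMod q) then
      hh u m / ((m:ℝ) - n) else 0) ≤ (u + 3) / q := by
  classical
  have hq' : (0:ℝ) < q := by exact_mod_cast hq
  rw [← Finset.sum_filter]
  set S := (Icc 1 N).filter (fun m => n < m ∧ (n : ZMod q) = (m : ZMod q)) with hS
  have hdiv : ∀ m ∈ S, ∃ j : ℕ, 1 ≤ j ∧ j ≤ N ∧ m = n + q * j := by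
    intro m hm
    rw [hS, mem_filter, mem_Icc] at hm
    obtain ⟨⟨h1, h2⟩, h3, h4⟩ := hm
    have h5 : q ∣ m - n := by
      have := (ZMod.natCast_eq_natCast_iff' n m q).1 h4
      exact (Nat.modEq_iff_dvd' h3.le).1 this
    obtain ⟨j, hj⟩ := h5
    refine ⟨j, ?_, ?_, by omega⟩
    · rcases Nat.eq_zero_or_pos j with rfl | h
      · omega
      · exact h
    · have : j ≤ q * j := Nat.le_mul_of_pos_left _ hq
      omega
  have hterm : ∀ m ∈ S, hh u m / ((m:ℝ) - n) ≤
      (1 / (q:ℝ)) * (hh u ((m - n) / q) / (((m - n) / q : ℕ) : ℝ)) := by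
    intro m hm
    obtain ⟨j, hj1, hj2, rfl⟩ := hdiv m hm
    have e1 : (n + q * j - n) / q = j := by
      rw [Nat.add_sub_cancel_left, Nat.mul_div_cancel_left _ (by omega)]
    rw [e1]
    have e2 : ((n + q * j : ℕ) : ℝ) - n = q * j := by push_cast; ring
    rw [e2]
    have h1 : hh u (n + q * j) ≤ hh u j := hh_anti u hj1 (by
      have : j ≤ q * j := Nat.le_mul_of_pos_left _ hq
      omega)
    have hj0 : (0:ℝ) < j := by exact_mod_cast hj1
    calc hh u (n + q * j) / (q * j) ≤ hh u j / (q * j) := by gcongr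
      _ = _ := by field_simp
  refine (Finset.sum_le_sum hterm).trans ?_
  rw [← Finset.mul_sum]
  have hinj : Set.InjOn (fun m => (m - n) / q) (S : Set ℕ) := by
    intro a ha b hb hab
    obtain ⟨j, hj1, hj2, rfl⟩ := hdiv a ha
    obtain ⟨k, hk1, hk2, rfl⟩ := hdiv b hb
    simp only [Nat.add_sub_cancel_left, Nat.mul_div_cancel_left _ (show 0 < q by omega)] at hab
    rw [hab]
  have himg : ∑ m ∈ S, (hh u ((m - n) / q) / (((m - n) / q : ℕ) : ℝ)) =
      ∑ j ∈ S.image (fun m => (m - n) / q), hh u j / j := by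
    rw [Finset.sum_image hinj]
  rw [himg]
  have hsub : S.image (fun m => (m - n) / q) ⊆ Icc 1 N := by
    intro j hj
    rw [mem_image] at hj
    obtain ⟨m, hm, rfl⟩ := hj
    obtain ⟨j, hj1, hj2, rfl⟩ := hdiv m hm
    rw [Nat.add_sub_cancel_left, Nat.mul_div_cancel_left _ (by omega), mem_Icc]
    exact ⟨hj1, hj2⟩
  have h2 := (Finset.sum_le_sum_of_subset_of_nonneg hsub
    (fun j _ _ => div_nonneg (hh_nonneg u j) (Nat.cast_nonneg j))).trans (sum_hh_div hu N)
  calc (1 / (q:ℝ)) * ∑ j ∈ S.image (fun m => (m - n) / q), hh u j / j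
      ≤ (1 / (q:ℝ)) * (u + 3) := by gcongr
    _ = _ := by ring

end Cyc2

open Cyc2 in
/-- C2: the off-diagonal terms for one modulus `q` -/
theorem cyc_offdiag : ∃ C : ℝ, 0 < C ∧ ∀ (q N : ℕ) (u : ℝ), 1 ≤ q → 0 ≤ u →
    ∑ n ∈ Finset.Icc 1 N, ∑ m ∈ Finset.Icc 1 N,
      (if n ≠ m ∧ (n : ZMod q) = (m : ZMod q) then
        ArithmeticFunction.vonMangoldt n * ArithmeticFunction.vonMangoldt m /
          (Real.sqrt n * Real.sqrt m) *
          (Real.exp (-(u - Real.log n) ^ 2 / 4) * Real.exp (-(u - Real.log m) ^ 2 / 4)) /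
          |Real.log n - Real.log m| else 0) ≤
      C * (u + 1) ^ 3 * Real.exp u / q := by
  classical
  refine ⟨18 * Real.exp 13 ^ 2, by positivity, ?_⟩
  intro q N u hq hu
  have hq' : (0:ℝ) < q := by exact_mod_cast hq
  set t : ℕ → ℕ → ℝ := fun n m =>
    ArithmeticFunction.vonMangoldt n * ArithmeticFunction.vonMangoldt m /
          (Real.sqrt n * Real.sqrt m) *
          (Real.exp (-(u - Real.log n) ^ 2 / 4) * Real.exp (-(u - Real.log m) ^ 2 / 4)) /
          |Real.log n - Real.log m| with ht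
  have hsymm : ∀ n m, t n m = t m n := by
    intro n m
    simp only [ht]
    rw [abs_sub_comm]
    congr 1
    ring
  have hsplit : ∀ n m : ℕ, (if n ≠ m ∧ (n : ZMod q) = (m : ZMod q) then t n m else 0) =
      (if n < m ∧ (n : ZMod q) = (m : ZMod q) then t n m else 0) +
      (if m < n ∧ (m : ZMod q) = (n : ZMod q) then t m n else 0) := by
    intro n m
    rcases lt_trichotomy n m with h | h | h
    · have h1 : ¬ m < n := by omega
      have h2 : n ≠ m := h.ne
      simp [h, h1, h2]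
    · subst h
      simp
    · have h1 : ¬ n < m := by omega
      have h2 : n ≠ m := h.ne'
      simp [h, h1, h2, eq_comm, hsymm n m]
  change ∑ n ∈ Finset.Icc 1 N, ∑ m ∈ Finset.Icc 1 N,
      (if n ≠ m ∧ (n : ZMod q) = (m : ZMod q) then t n m else 0) ≤ _
  have e1 : ∑ n ∈ Finset.Icc 1 N, ∑ m ∈ Finset.Icc 1 N,
      (if n ≠ m ∧ (n : ZMod q) = (m : ZMod q) then t n m else 0) =
      2 * ∑ n ∈ Finset.Icc 1 N, ∑ m ∈ Finset.Icc 1 N,
      (if n < m ∧ (n : ZMod q) = (m : ZMod q) then t n m else 0) := by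
    simp only [hsplit, Finset.sum_add_distrib]
    rw [Finset.sum_comm (f := fun n m : ℕ =>
      if m < n ∧ (m : ZMod q) = (n : ZMod q) then t m n else 0)]
    ring
  rw [e1]
  have e2 : ∑ n ∈ Finset.Icc 1 N, ∑ m ∈ Finset.Icc 1 N,
      (if n < m ∧ (n : ZMod q) = (m : ZMod q) then t n m else 0) ≤
      ∑ n ∈ Finset.Icc 1 N, (Real.exp 13 * (u + 1)) ^ 2 * hh u n * ((u + 3) / q) := by
    refine Finset.sum_le_sum fun n hn => ?_
    rw [mem_Icc] at hn
    have h1 : ∑ m ∈ Finset.Icc 1 N,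
        (if n < m ∧ (n : ZMod q) = (m : ZMod q) then t n m else 0) ≤
        ∑ m ∈ Finset.Icc 1 N, (Real.exp 13 * (u + 1)) ^ 2 * hh u n *
          (if n < m ∧ (n : ZMod q) = (m : ZMod q) then hh u m / ((m:ℝ) - n) else 0) := by
      refine Finset.sum_le_sum fun m _ => ?_
      split_ifs with h
      · have := term_le hu hn.1 h.1
        refine this.trans (le_of_eq ?_)
        ring
      · simp
    refine h1.trans ?_
    rw [← Finset.mul_sum]
    have h2 := inner_le hu hq N n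
    have h3 := hh_nonneg u n
    gcongr
  have e3 : ∑ n ∈ Finset.Icc 1 N, (Real.exp 13 * (u + 1)) ^ 2 * hh u n * ((u + 3) / q) =
      (Real.exp 13 * (u + 1)) ^ 2 * ((u + 3) / q) * ∑ n ∈ Finset.Icc 1 N, hh u n := by
    rw [Finset.mul_sum]
    exact Finset.sum_congr rfl fun n _ => by ring
  rw [e3] at e2
  have e4 := sum_hh hu N
  calc 2 * ∑ n ∈ Finset.Icc 1 N, ∑ m ∈ Finset.Icc 1 N,
      (if n < m ∧ (n : ZMod q) = (m : ZMod q) then t n m else 0)
      ≤ 2 * ((Real.exp 13 * (u + 1)) ^ 2 * ((u + 3) / q) * (3 * Real.exp u)) := by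
        refine mul_le_mul_of_nonneg_left (e2.trans ?_) (by norm_num)
        gcongr
    _ ≤ 2 * ((Real.exp 13 * (u + 1)) ^ 2 * ((3 * (u + 1)) / q) * (3 * Real.exp u)) := by
        have : u + 3 ≤ 3 * (u + 1) := by linarith
        gcongr
    _ = _ := by ring

end H385
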