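import Pool.Agent.H385R2.Char
import Pool.Agent.H385R2.FamLS
import Pool.Agent.H385R2.FinB
import Pool.Agent.H385R3.Cyc1
import Pool.Agent.H385R3.Cyc2

/-!
TEAM Q, project CYC: mean square over all characters modulo `q`.
-/

open Complex Filter Topology Set MeasureTheory

set_option maxHeartbeats 4000000

namespace H385

open FamLS

/-- orthogonality modulo `q` -/
theorem cyc_orth (q : ℕ) [NeZero q] (N : ℕ) (c : ℕ → ℂ)
    (hc : ∀ n, ¬ Nat.Coprime n q → c n = 0) :
    ((∑ χ : DirichletCharacter ℂ q, ‖∑ n ∈ Finset.Icc 1 N, c n * χ (n : ZMod q)‖ ^ 2 : ℝ) : ℂ) =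
      (Nat.totient q : ℂ) * ∑ n ∈ Finset.Icc 1 N, ∑ m ∈ Finset.Icc 1 N,
        (if (n : ZMod q) = (m : ZMod q) then c n * (starRingEnd ℂ) (c m) else 0) := by
  classical
  push_cast
  have h1 : ∀ χ : DirichletCharacter ℂ q, ((‖∑ n ∈ Finset.Icc 1 N, c n * χ (n : ZMod q)‖ : ℂ)) ^ 2 =
      ∑ n ∈ Finset.Icc 1 N, ∑ m ∈ Finset.Icc 1 N, (c n * (starRingEnd ℂ) (c m)) *
        (χ⁻¹ (m : ZMod q) * χ (n : ZMod q)) := by
    intro χ
    rw [← Complex.mul_conj', map_sum, Finset.sum_mul_sum]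
    refine Finset.sum_congr rfl fun n _ => Finset.sum_congr rfl fun m _ => ?_
    have h2 : (starRingEnd ℂ) (χ (m : ZMod q)) = χ⁻¹ (m : ZMod q) := MulChar.star_apply' χ _
    rw [map_mul, h2]
    ring
  simp only [h1]
  rw [Finset.sum_comm, Finset.mul_sum]
  refine Finset.sum_congr rfl fun n _ => ?_
  rw [Finset.sum_comm, Finset.mul_sum]
  refine Finset.sum_congr rfl fun m _ => ?_
  rw [← Finset.mul_sum]
  by_cases hm : Nat.Coprime m q
  · have hu : IsUnit (m : ZMod q) := (ZMod.isUnit_iff_coprime m q).mpr hm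
    have h5 := DirichletCharacter.sum_char_inv_mul_char_eq ℂ hu (n : ZMod q)
    have h6 : ∀ χ : DirichletCharacter ℂ q, χ⁻¹ (m : ZMod q) = χ (m : ZMod q)⁻¹ := by
      intro χ
      obtain ⟨u, hu⟩ := hu
      rw [← hu, MulChar.inv_apply, Ring.inverse_unit, ZMod.inv_coe_unit]
    simp only [h6]
    rw [h5]
    by_cases hnm : (n : ZMod q) = (m : ZMod q)
    · rw [if_pos hnm.symm, if_pos hnm]; ring
    · rw [if_neg (fun h => hnm h.symm), if_neg hnm]; ring
  · rw [hc m hm]
    simp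

/-- the functions in the prime sum -/
noncomputable def bn (T u t : ℝ) (n : ℕ) : ℂ := (Real.sqrt n : ℂ)⁻¹ * bt T u t (Real.log n)

theorem bn_aq_norm (T u t : ℝ) (q n : ℕ) :
    ‖aq (bn T u t) q n‖ ≤ ArithmeticFunction.vonMangoldt n * ‖bn T u t n‖ := by
  unfold aq
  split_ifs
  · rw [norm_mul, Complex.norm_real, Real.norm_of_nonneg ArithmeticFunction.vonMangoldt_nonneg]
  · rw [norm_zero]
    exact mul_nonneg ArithmeticFunction.vonMangoldt_nonneg (norm_nonneg _)

/-- the product of two terms is integrable and has small integral -/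
theorem aq_cross : ∃ C : ℝ, 0 < C ∧ ∀ (T u : ℝ) (q n m : ℕ), 0 ≤ T → 1 ≤ n → 1 ≤ m → n ≠ m →
    Integrable (fun t : ℝ => aq (bn T u t) q n * (starRingEnd ℂ) (aq (bn T u t) q m)) ∧
    ‖∫ t : ℝ, aq (bn T u t) q n * (starRingEnd ℂ) (aq (bn T u t) q m)‖ ≤
      C * (ArithmeticFunction.vonMangoldt n * ArithmeticFunction.vonMangoldt m /
          (Real.sqrt n * Real.sqrt m) *
          (Real.exp (-(u - Real.log n) ^ 2 / 4) * Real.exp (-(u - Real.log m) ^ 2 / 4)) /
          |Real.log n - Real.log m|) := by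
  obtain ⟨C, hC, h⟩ := bt_cross
  refine ⟨C, hC, fun T u q n m hT hn hm hnm => ?_⟩
  have hn0 : (0 : ℝ) < n := by exact_mod_cast hn
  have hm0 : (0 : ℝ) < m := by exact_mod_cast hm
  have hl : Real.log n ≠ Real.log m := by
    intro e
    have := Real.log_injOn_pos (Set.mem_Ioi.mpr hn0) (Set.mem_Ioi.mpr hm0) e
    exact hnm (by exact_mod_cast this)
  obtain ⟨h1, h2⟩ := h T u (Real.log n) (Real.log m) hT hl
  by_cases hc : Nat.Coprime n q ∧ Nat.Coprime m q
  · have e : (fun t : ℝ => aq (bn T u t) q n * (starRingEnd ℂ) (aq (bn T u t) q m)) =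
        fun t : ℝ => ((ArithmeticFunction.vonMangoldt n * ArithmeticFunction.vonMangoldt m /
          (Real.sqrt n * Real.sqrt m) : ℝ) : ℂ) *
          (bt T u t (Real.log n) * (starRingEnd ℂ) (bt T u t (Real.log m))) := by
      ext t
      unfold aq bn
      rw [if_pos hc.1, if_pos hc.2]
      simp only [map_mul, map_inv₀, Complex.conj_ofReal]
      push_cast
      field_simp
    rw [e]
    refine ⟨h1.const_mul _, ?_⟩
    rw [integral_const_mul, norm_mul, Complex.norm_real, Real.norm_of_nonneg (by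
      have := @ArithmeticFunction.vonMangoldt_nonneg n
      have := @ArithmeticFunction.vonMangoldt_nonneg m
      positivity)]
    refine (mul_le_mul_of_nonneg_left h2 (by
      have := @ArithmeticFunction.vonMangoldt_nonneg n
      have := @ArithmeticFunction.vonMangoldt_nonneg m
      positivity)).trans (le_of_eq ?_)
    ring
  · have e : (fun t : ℝ => aq (bn T u t) q n * (starRingEnd ℂ) (aq (bn T u t) q m)) =
        fun _ : ℝ => (0 : ℂ) := by
      ext t
      unfold aq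
      rcases not_and_or.mp hc with h | h
      · rw [if_neg h]; simp
      · rw [if_neg h]; simp
    rw [e]
    refine ⟨integrable_zero _ _ _, ?_⟩
    have := @ArithmeticFunction.vonMangoldt_nonneg n
    have := @ArithmeticFunction.vonMangoldt_nonneg m
    simp only [integral_zero, norm_zero]
    positivity

/-- mean square over all characters modulo `q`, finite sum -/
theorem cyc_ms : ∃ C : ℝ, 0 < C ∧ ∀ (q : ℕ) [NeZero q] (N : ℕ) (T κ u : ℝ), 1 ≤ κ → 1 ≤ T →
    T ≤ Real.exp (κ ^ 2) → 0 ≤ u →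
    Integrable (fun t : ℝ => ∑ χ : DirichletCharacter ℂ q,
      ‖∑ n ∈ Finset.Icc 1 N, aq (bn T u t) q n * χ (n : ZMod q)‖ ^ 2) ∧
    ∫ t : ℝ, ∑ χ : DirichletCharacter ℂ q,
      ‖∑ n ∈ Finset.Icc 1 N, aq (bn T u t) q n * χ (n : ZMod q)‖ ^ 2 ≤
      Nat.totient q * (T / (2 * Real.pi) * S1 u + C * κ * (u + 1) +
        C * (u + 1) ^ 3 * Real.exp u / q) := by
  classical
  obtain ⟨C1, hC1, h1⟩ := bt_sum_int
  obtain ⟨C2, hC2, h2⟩ := cyc_offdiag
  obtain ⟨C3, hC3, h3⟩ := aq_cross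
  refine ⟨max C1 (C3 * C2), lt_max_of_lt_left hC1, ?_⟩
  intro q _ N T κ u hκ hT hTκ hu
  have hT0 : 0 ≤ T := by linarith
  have hq1 : 1 ≤ q := NeZero.one_le
  obtain ⟨d1, d2⟩ := h1 T κ u N hκ hT hTκ hu
  have ho := h2 q N u hq1 hu
  -- the pointwise identity
  set A : ℝ → ℕ → ℂ := fun t n => aq (bn T u t) q n with hA
  have hid : ∀ t : ℝ, ∑ χ : DirichletCharacter ℂ q,
      ‖∑ n ∈ Finset.Icc 1 N, A t n * χ (n : ZMod q)‖ ^ 2 =
      Nat.totient q * (∑ n ∈ Finset.Icc 1 N, ‖A t n‖ ^ 2 +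
        (∑ n ∈ Finset.Icc 1 N, ∑ m ∈ Finset.Icc 1 N,
          (if n ≠ m ∧ (n : ZMod q) = (m : ZMod q) then A t n * (starRingEnd ℂ) (A t m) else 0)).re) := by
    intro t
    have e := cyc_orth q N (A t) (fun n hn => by simp only [hA]; unfold aq; rw [if_neg hn])
    have e2 : ∑ n ∈ Finset.Icc 1 N, ∑ m ∈ Finset.Icc 1 N,
        (if (n : ZMod q) = (m : ZMod q) then A t n * (starRingEnd ℂ) (A t m) else 0) =
        ((∑ n ∈ Finset.Icc 1 N, ‖A t n‖ ^ 2 : ℝ) : ℂ) +
        ∑ n ∈ Finset.Icc 1 N, ∑ m ∈ Finset.Icc 1 N,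
          (if n ≠ m ∧ (n : ZMod q) = (m : ZMod q) then A t n * (starRingEnd ℂ) (A t m) else 0) := by
      push_cast
      rw [← Finset.sum_add_distrib]
      refine Finset.sum_congr rfl fun n hn => ?_
      have e3 : ((‖A t n‖ : ℂ)) ^ 2 = ∑ m ∈ Finset.Icc 1 N,
          (if n = m then A t n * (starRingEnd ℂ) (A t m) else 0) := by
        rw [Finset.sum_ite_eq, if_pos hn, Complex.mul_conj']
      rw [e3, ← Finset.sum_add_distrib]
      refine Finset.sum_congr rfl fun m _ => ?_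
      by_cases hnm : n = m
      · subst hnm; simp
      · simp [hnm]
    rw [e2] at e
    have e4 := congrArg Complex.re e
    rw [Complex.ofReal_re] at e4
    rw [e4, ← Complex.ofReal_natCast, Complex.re_ofReal_mul, Complex.add_re, Complex.ofReal_re]
  have hAn : ∀ t n, ‖A t n‖ ^ 2 ≤ (ArithmeticFunction.vonMangoldt n) ^ 2 *
      ‖(Real.sqrt n : ℂ)⁻¹ * bt T u t (Real.log n)‖ ^ 2 := by
    intro t n
    rw [← mul_pow]
    exact pow_le_pow_left₀ (norm_nonneg _) (bn_aq_norm T u t q n) 2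
  have hAc : ∀ n, Continuous (fun t => A t n) := by
    intro n
    simp only [hA]
    unfold aq bn
    split_ifs
    · have := (bt_cont T (Real.log n)).comp (Continuous.prodMk_right (X := ℝ) (Y := ℝ) u)
      exact continuous_const.mul (continuous_const.mul this)
    · exact continuous_const
  have hA2 : Integrable (fun t => ∑ n ∈ Finset.Icc 1 N, ‖A t n‖ ^ 2) := by
    refine d1.mono' (Continuous.aestronglyMeasurable
      (continuous_finsetSum _ fun n _ => ((hAc n).norm.pow 2))) (Eventually.of_forall fun t => ?_)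
    rw [Real.norm_of_nonneg (Finset.sum_nonneg fun n _ => sq_nonneg _)]
    exact Finset.sum_le_sum fun n _ => hAn t n
  have hcross : ∀ n ∈ Finset.Icc 1 N, ∀ m ∈ Finset.Icc 1 N, Integrable (fun t : ℝ =>
      (if n ≠ m ∧ (n : ZMod q) = (m : ZMod q) then A t n * (starRingEnd ℂ) (A t m) else 0)) := by
    intro n hn m hm
    by_cases h : n ≠ m ∧ (n : ZMod q) = (m : ZMod q)
    · simp only [if_pos h]
      exact (h3 T u q n m hT0 (Finset.mem_Icc.mp hn).1 (Finset.mem_Icc.mp hm).1 h.1).1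
    · simp only [if_neg h]
      exact integrable_zero _ _ _
  have hI : Integrable (fun t : ℝ => ∑ n ∈ Finset.Icc 1 N, ∑ m ∈ Finset.Icc 1 N,
      (if n ≠ m ∧ (n : ZMod q) = (m : ZMod q) then A t n * (starRingEnd ℂ) (A t m) else 0)) :=
    integrable_finsetSum _ fun n hn => integrable_finsetSum _ fun m hm => hcross n hn m hm
  have hIre : Integrable (fun t : ℝ => (∑ n ∈ Finset.Icc 1 N, ∑ m ∈ Finset.Icc 1 N,
      (if n ≠ m ∧ (n : ZMod q) = (m : ZMod q) then A t n * (starRingEnd ℂ) (A t m) else 0)).re) :=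
    hI.re
  have hfun : (fun t : ℝ => ∑ χ : DirichletCharacter ℂ q,
      ‖∑ n ∈ Finset.Icc 1 N, A t n * χ (n : ZMod q)‖ ^ 2) = fun t =>
      Nat.totient q * (∑ n ∈ Finset.Icc 1 N, ‖A t n‖ ^ 2 +
        (∑ n ∈ Finset.Icc 1 N, ∑ m ∈ Finset.Icc 1 N,
          (if n ≠ m ∧ (n : ZMod q) = (m : ZMod q) then A t n * (starRingEnd ℂ) (A t m) else 0)).re) :=
    funext hid
  constructor
  · rw [hfun]
    exact (hA2.add hIre).const_mul _
  · rw [hfun, integral_const_mul]
    refine mul_le_mul_of_nonneg_left ?_ (Nat.cast_nonneg _)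
    rw [integral_add hA2 hIre]
    have k1 : ∫ t : ℝ, ∑ n ∈ Finset.Icc 1 N, ‖A t n‖ ^ 2 ≤
        T / (2 * Real.pi) * S1 u + C1 * κ * (u + 1) :=
      (integral_mono hA2 d1 (fun t => Finset.sum_le_sum fun n _ => hAn t n)).trans d2
    have k2 : ∫ t : ℝ, (∑ n ∈ Finset.Icc 1 N, ∑ m ∈ Finset.Icc 1 N,
        (if n ≠ m ∧ (n : ZMod q) = (m : ZMod q) then A t n * (starRingEnd ℂ) (A t m) else 0)).re ≤
        C3 * (C2 * (u + 1) ^ 3 * Real.exp u / q) := by
      have r1 : ∫ t : ℝ, (∑ n ∈ Finset.Icc 1 N, ∑ m ∈ Finset.Icc 1 N,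
        (if n ≠ m ∧ (n : ZMod q) = (m : ZMod q) then A t n * (starRingEnd ℂ) (A t m) else 0)).re =
        (∫ t : ℝ, ∑ n ∈ Finset.Icc 1 N, ∑ m ∈ Finset.Icc 1 N,
        (if n ≠ m ∧ (n : ZMod q) = (m : ZMod q) then A t n * (starRingEnd ℂ) (A t m) else 0)).re :=
        integral_re hI
      rw [r1]
      refine (Complex.re_le_norm _).trans ?_
      rw [integral_finsetSum _ (fun n hn => integrable_finsetSum _ fun m hm => hcross n hn m hm)]
      refine (norm_sum_le _ _).trans ?_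
      refine le_trans ?_ (mul_le_mul_of_nonneg_left ho hC3.le)
      rw [Finset.mul_sum]
      refine Finset.sum_le_sum fun n hn => ?_
      rw [integral_finsetSum _ (fun m hm => hcross n hn m hm)]
      refine (norm_sum_le _ _).trans ?_
      rw [Finset.mul_sum]
      refine Finset.sum_le_sum fun m hm => ?_
      by_cases h : n ≠ m ∧ (n : ZMod q) = (m : ZMod q)
      · simp only [if_pos h]
        exact (h3 T u q n m hT0 (Finset.mem_Icc.mp hn).1 (Finset.mem_Icc.mp hm).1 h.1).2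
      · simp only [if_neg h]
        simp
    have hmax1 : C1 * κ * (u + 1) ≤ max C1 (C3 * C2) * κ * (u + 1) := by
      have : C1 ≤ max C1 (C3 * C2) := le_max_left _ _
      gcongr
    have hmax2 : C3 * (C2 * (u + 1) ^ 3 * Real.exp u / q) ≤
        max C1 (C3 * C2) * (u + 1) ^ 3 * Real.exp u / q := by
      have h9 : C3 * C2 ≤ max C1 (C3 * C2) := le_max_right _ _
      calc C3 * (C2 * (u + 1) ^ 3 * Real.exp u / q) = (C3 * C2) * (u + 1) ^ 3 * Real.exp u / q := by
            ring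
        _ ≤ _ := by gcongr
    linarith

end H385
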