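import Pool.Agent.H385R3.Cyc4
import Pool.Agent.H385R2.FinB2

/-!
TEAM Q, project CYC: mean square over all characters modulo `q`, infinite sum.
-/

open Complex Filter Topology Set MeasureTheory

set_option maxHeartbeats 4000000

namespace H385

open FamLS

theorem bn_summable (T u t : ℝ) (hT : 0 ≤ T) : Summable (mj (bn T u t)) := b_summable T u t hT

theorem BB1_bn (T u t : ℝ) (hT : 0 ≤ T) (q : ℕ) :
    ∑' n, BB1 (bn T u t) q n ≤ wt T t * Gq q u := by
  have h := b_tsum_le T u t hT (fun n => ¬ Nat.Coprime n q)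
  simp only [ite_not] at h
  exact h

theorem TT1_bn (T u t : ℝ) (hT : 0 ≤ T) (N : ℕ) :
    ∑' n, TT1 (bn T u t) N n ≤ wt T t * Tl N u :=
  b_tsum_le T u t hT (fun n => N < n)

/-- pointwise bound -/
theorem cyc_point (δ : ℝ) (hδ : 0 < δ) (q : ℕ) [NeZero q] (N : ℕ) (T u t : ℝ) (hT : 0 ≤ T)
    (hN : Tl N u ≤ 1) :
    ∑ χ : DirichletCharacter ℂ q, (1 / (Nat.totient q : ℝ)) * ‖∑' n : ℕ, aa q χ n * bn T u t n‖ ^ 2 ≤
      (1 + δ) * ((1 / (Nat.totient q : ℝ)) * ∑ χ : DirichletCharacter ℂ q,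
        ‖∑ n ∈ Finset.Icc 1 N, aq (bn T u t) q n * χ (n : ZMod q)‖ ^ 2) +
      (1 + 1 / δ) * (wt T t ^ 2 * (Gq q u + 1) ^ 2) := by
  classical
  have hφ : (0 : ℝ) < Nat.totient q := by exact_mod_cast Nat.totient_pos.mpr (NeZero.pos q)
  have hw := wt_nonneg T t hT
  have hG := Gq_nonneg q u
  have hpt : ∀ χ : DirichletCharacter ℂ q, ‖∑' n : ℕ, aa q χ n * bn T u t n‖ ^ 2 ≤
      (1 + δ) * ‖∑ n ∈ Finset.Icc 1 N, aq (bn T u t) q n * χ (n : ZMod q)‖ ^ 2 +
      (1 + 1 / δ) * (wt T t ^ 2 * (Gq q u + 1) ^ 2) := by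
    intro χ
    have h1 := claimA (bn T u t) (bn_summable T u t hT) q χ N
    set S := ∑ n ∈ Finset.Icc 1 N, aq (bn T u t) q n * χ (n : ZMod q) with hS
    set R := ∑' n : ℕ, aa q χ n * bn T u t n with hR
    have h2 : R = S + (R - S) := by ring
    have h3 : ‖R - S‖ ≤ wt T t * (Gq q u + 1) := by
      refine h1.trans ?_
      have a1 := BB1_bn T u t hT q
      have a2 := TT1_bn T u t hT N
      have a3 : wt T t * Tl N u ≤ wt T t * 1 := mul_le_mul_of_nonneg_left hN hw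
      calc _ ≤ wt T t * Gq q u + wt T t * 1 := by linarith
        _ = _ := by ring
    have h4 : ‖R - S‖ ^ 2 ≤ wt T t ^ 2 * (Gq q u + 1) ^ 2 := by
      rw [← mul_pow]
      exact pow_le_pow_left₀ (norm_nonneg _) h3 2
    rw [h2]
    refine (sq_add_le S (R - S) δ hδ).trans ?_
    have h5 : 0 ≤ 1 + 1 / δ := by positivity
    have h6 := mul_le_mul_of_nonneg_left h4 h5
    linarith
  calc _ ≤ ∑ χ : DirichletCharacter ℂ q, (1 / (Nat.totient q : ℝ)) * ((1 + δ) *
        ‖∑ n ∈ Finset.Icc 1 N, aq (bn T u t) q n * χ (n : ZMod q)‖ ^ 2 +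
      (1 + 1 / δ) * (wt T t ^ 2 * (Gq q u + 1) ^ 2)) :=
        Finset.sum_le_sum fun χ _ => mul_le_mul_of_nonneg_left (hpt χ) (by positivity)
    _ = _ := by
        have hcard : (Finset.univ : Finset (DirichletCharacter ℂ q)).card = Nat.totient q := by
          rw [Finset.card_univ, ← Nat.card_eq_fintype_card,
            DirichletCharacter.card_eq_totient_of_hasEnoughRootsOfUnity ℂ q]
        simp only [mul_add, Finset.sum_add_distrib, Finset.sum_const, hcard, nsmul_eq_mul,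
          ← Finset.mul_sum]
        field_simp

/-- mean square -/
theorem cyc_int : ∃ C : ℝ, 0 < C ∧ ∀ (δ : ℝ) (q : ℕ) [NeZero q] (N : ℕ) (T κ u : ℝ), 0 < δ →
    1 ≤ κ → 1 ≤ T → T ≤ Real.exp (κ ^ 2) → 0 ≤ u → Tl N u ≤ 1 →
    ∫ t : ℝ, ∑ χ : DirichletCharacter ℂ q, (1 / (Nat.totient q : ℝ)) *
      ‖∑' n : ℕ, aa q χ n * ((Real.sqrt n : ℂ)⁻¹ * bt T u t (Real.log n))‖ ^ 2 ≤
      (1 + δ) * (T / (2 * Real.pi) * S1 u + C * κ * (u + 1) +
        C * (u + 1) ^ 3 * Real.exp u / q) + (1 + 1 / δ) * ((T + C) * (Gq q u + 1) ^ 2) := by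
  obtain ⟨C1, hC1, h1⟩ := cyc_ms
  obtain ⟨C2, hC2, h2⟩ := wt_sq_int
  refine ⟨C1 + C2, by positivity, ?_⟩
  intro δ q _ N T κ u hδ hκ hT hTκ hu hN
  have hT0 : 0 ≤ T := by linarith
  have hφ : (0 : ℝ) < Nat.totient q := by exact_mod_cast Nat.totient_pos.mpr (NeZero.pos q)
  obtain ⟨a1, a2⟩ := h1 q N T κ u hκ hT hTκ hu
  obtain ⟨b1, b2⟩ := h2 T hT0
  have hq0 : (0 : ℝ) < q := by exact_mod_cast NeZero.pos q
  calc _ ≤ ∫ t : ℝ, ((1 + δ) * ((1 / (Nat.totient q : ℝ)) * ∑ χ : DirichletCharacter ℂ q,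
        ‖∑ n ∈ Finset.Icc 1 N, aq (bn T u t) q n * χ (n : ZMod q)‖ ^ 2) +
      (1 + 1 / δ) * (wt T t ^ 2 * (Gq q u + 1) ^ 2)) := by
        refine integral_mono_of_nonneg ?_ ?_ ?_
        · exact Filter.Eventually.of_forall (fun t => Finset.sum_nonneg fun χ _ => by positivity)
        · exact ((a1.const_mul _).const_mul _).add ((b1.mul_const _).const_mul _)
        · exact Filter.Eventually.of_forall (fun t => cyc_point δ hδ q N T u t hT0 hN)
    _ = (1 + δ) * ((1 / (Nat.totient q : ℝ)) * ∫ t : ℝ, ∑ χ : DirichletCharacter ℂ q,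
        ‖∑ n ∈ Finset.Icc 1 N, aq (bn T u t) q n * χ (n : ZMod q)‖ ^ 2) +
      (1 + 1 / δ) * ((∫ t : ℝ, wt T t ^ 2) * (Gq q u + 1) ^ 2) := by
        rw [integral_add ((a1.const_mul _).const_mul _) ((b1.mul_const _).const_mul _),
          integral_const_mul, integral_const_mul, integral_const_mul, integral_mul_const]
    _ ≤ (1 + δ) * (T / (2 * Real.pi) * S1 u + C1 * κ * (u + 1) +
        C1 * (u + 1) ^ 3 * Real.exp u / q) + (1 + 1 / δ) * ((T + C2) * (Gq q u + 1) ^ 2) := by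
        refine add_le_add ?_ ?_
        · refine mul_le_mul_of_nonneg_left ?_ (by positivity)
          calc _ ≤ (1 / (Nat.totient q : ℝ)) * (Nat.totient q * (T / (2 * Real.pi) * S1 u +
                C1 * κ * (u + 1) + C1 * (u + 1) ^ 3 * Real.exp u / q)) :=
                mul_le_mul_of_nonneg_left a2 (by positivity)
            _ = _ := by field_simp
        · refine mul_le_mul_of_nonneg_left ?_ (by positivity)
          exact mul_le_mul_of_nonneg_right b2 (sq_nonneg _)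
    _ ≤ _ := by
        have e1 : C1 * κ * (u + 1) ≤ (C1 + C2) * κ * (u + 1) := by gcongr; linarith
        have e2 : C1 * (u + 1) ^ 3 * Real.exp u / q ≤ (C1 + C2) * (u + 1) ^ 3 * Real.exp u / q := by
          gcongr; linarith
        have e3 : (T + C2) * (Gq q u + 1) ^ 2 ≤ (T + (C1 + C2)) * (Gq q u + 1) ^ 2 := by
          gcongr; linarith
        have e4 : 0 ≤ 1 + δ := by positivity
        have e5 : 0 ≤ 1 + 1 / δ := by positivity
        refine add_le_add (mul_le_mul_of_nonneg_left (by linarith) e4)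
          (mul_le_mul_of_nonneg_left e3 e5)

end H385
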