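import Mathlib

/-!
TEAM Q, project CYC: the numerical part of the final step.
-/

open Filter Topology Set

namespace H385

/-- numerical core -/
theorem cyc_num (R0 c' β ε C1 C2 : ℝ) (hR0 : 0 ≤ R0) (hc' : 0 ≤ c') (hβ : 0 < β) (hε : 0 < ε)
    (hC1 : 0 < C1) (hC2 : 0 < C2) :
    ∃ ε1 L0 : ℝ, 0 < ε1 ∧ 1 ≤ L0 ∧ ∀ T ℒ κ s12 J0 SM SN : ℝ, 0 < T → L0 ≤ ℒ → 0 ≤ κ →
      κ ≤ ε1 * T → s12 ≤ ε1 * ℒ → J0 ≤ T / (2 * Real.pi) * ℒ * (c' + ε1) →
      SM ≤ ℒ ^ 2 * R0 * T / (2 * Real.pi * (β * ℒ)) + J0 +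
        C1 * ((ℒ ^ 2 * κ / (β * ℒ) + ℒ * T / (β * ℒ) + κ * ℒ) + ℒ * T * s12 / (β * ℒ)) →
      T / (2 * Real.pi) * ℒ * (1 - ε1) - C2 * (T + κ * ℒ) ≤ SN →
      SM ≤ (R0 / β + c' + ε) * SN := by
  have hπ := Real.pi_pos
  have hπ4 := Real.pi_lt_four
  set K0 : ℝ := R0 / β + c' with hK0
  have hK0n : 0 ≤ K0 := by positivity
  -- constants
  set D1 : ℝ := 1 + 8 * C1 * (2 / β + 1) with hD1
  have hD1p : 0 < D1 := by positivity
  set D2 : ℝ := 1 + 8 * C2 with hD2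
  have hD2p : 0 < D2 := by positivity
  set ε1 : ℝ := min (ε / (4 * D1)) (ε / (4 * (K0 + ε) * D2)) with hε1
  have hKε : 0 < K0 + ε := by linarith
  have hε10 : 0 < ε1 := lt_min (by positivity) (by positivity)
  have hε1a : ε1 * D1 ≤ ε / 4 := by
    calc ε1 * D1 ≤ ε / (4 * D1) * D1 := by gcongr; exact min_le_left _ _
      _ = ε / 4 := by field_simp
  have hε1b : (K0 + ε) * (ε1 * D2) ≤ ε / 4 := by
    calc (K0 + ε) * (ε1 * D2) ≤ (K0 + ε) * (ε / (4 * (K0 + ε) * D2) * D2) := by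
          gcongr; exact min_le_right _ _
      _ = ε / 4 := by field_simp
  set L0 : ℝ := 1 + 8 * C1 / β * (4 / ε) + (K0 + ε) * (8 * C2) * (4 / ε) with hL0
  have hL0a : 8 * C1 / β ≤ ε / 4 * L0 := by
    have : ε / 4 * L0 = 8 * C1 / β + ε / 4 * (1 + (K0 + ε) * (8 * C2) * (4 / ε)) := by
      rw [hL0]; field_simp; ring
    rw [this]
    have : 0 ≤ ε / 4 * (1 + (K0 + ε) * (8 * C2) * (4 / ε)) := by positivity
    linarith
  have hL0b : (K0 + ε) * (8 * C2) ≤ ε / 4 * L0 := by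
    have : ε / 4 * L0 = (K0 + ε) * (8 * C2) + ε / 4 * (1 + 8 * C1 / β * (4 / ε)) := by
      rw [hL0]; field_simp; ring
    rw [this]
    have : 0 ≤ ε / 4 * (1 + 8 * C1 / β * (4 / ε)) := by positivity
    linarith
  have hL01 : 1 ≤ L0 := by
    have : 0 ≤ 8 * C1 / β * (4 / ε) + (K0 + ε) * (8 * C2) * (4 / ε) := by positivity
    rw [hL0]; linarith
  refine ⟨ε1, L0, hε10, hL01, ?_⟩
  intro T ℒ κ s12 J0 SM SN hT hℒ hκ hκT hs hJ hM hN
  have hℒ0 : 0 < ℒ := by linarith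
  set U : ℝ := T / (2 * Real.pi) * ℒ with hU
  have hU0 : 0 < U := by positivity
  have hTU : T * ℒ ≤ 8 * U := by
    rw [hU]
    have h1 : 1 ≤ 8 / (2 * Real.pi) := by
      rw [le_div_iff₀ (by positivity)]; linarith
    calc T * ℒ = T * ℒ * 1 := by ring
      _ ≤ T * ℒ * (8 / (2 * Real.pi)) := by gcongr
      _ = _ := by ring
  have hTU' : T ≤ 8 * U / ℒ := by
    rw [le_div_iff₀ hℒ0]; exact hTU
  have e1 : ℒ ^ 2 * R0 * T / (2 * Real.pi * (β * ℒ)) = U * (R0 / β) := by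
    rw [hU]; field_simp
  have e2 : ℒ ^ 2 * κ / (β * ℒ) = κ * ℒ / β := by field_simp
  have e3 : ℒ * T / (β * ℒ) = T / β := by field_simp
  have e4 : ℒ * T * s12 / (β * ℒ) = T * s12 / β := by field_simp
  rw [e1, e2, e3, e4] at hM
  have f1 : κ * ℒ ≤ ε1 * (8 * U) := by
    calc κ * ℒ ≤ ε1 * T * ℒ := by gcongr
      _ = ε1 * (T * ℒ) := by ring
      _ ≤ _ := by gcongr
  have f2 : T * s12 ≤ ε1 * (8 * U) := by
    calc T * s12 ≤ T * (ε1 * ℒ) := by gcongr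
      _ = ε1 * (T * ℒ) := by ring
      _ ≤ _ := by gcongr
  have f3 : T ≤ 8 * U / ℒ := hTU'
  have g1 : C1 * ((κ * ℒ / β + T / β + κ * ℒ) + T * s12 / β) ≤
      C1 * ((ε1 * (8 * U) / β + (8 * U / ℒ) / β + ε1 * (8 * U)) + ε1 * (8 * U) / β) := by
    gcongr
  have g2 : C1 * ((ε1 * (8 * U) / β + (8 * U / ℒ) / β + ε1 * (8 * U)) + ε1 * (8 * U) / β) =
      U * (ε1 * (8 * C1 * (2 / β + 1))) + U * (8 * C1 / β / ℒ) := by
    field_simp
    ring
  have g3 : 8 * C1 / β / ℒ ≤ ε / 4 := by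
    rw [div_le_iff₀ hℒ0]
    exact hL0a.trans (mul_le_mul_of_nonneg_left hℒ (by positivity))
  have hSM : SM ≤ U * (K0 + ε / 2) := by
    have h1 : U * (8 * C1 / β / ℒ) ≤ U * (ε / 4) := mul_le_mul_of_nonneg_left g3 hU0.le
    have h2 : U * (ε1 * D1) ≤ U * (ε / 4) := mul_le_mul_of_nonneg_left hε1a hU0.le
    have h3 : U * (R0 / β) + U * (c' + ε1) + U * (ε1 * (8 * C1 * (2 / β + 1))) =
        U * K0 + U * (ε1 * D1) := by rw [hK0, hD1]; ring
    rw [g2] at g1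
    have h4 : U * (K0 + ε / 2) = U * K0 + U * (ε / 4) + U * (ε / 4) := by ring
    rw [h4]
    linarith
  have hSN : U * (1 - ε1 * D2 - 8 * C2 / ℒ) ≤ SN := by
    refine le_trans ?_ hN
    have h1 : C2 * (T + κ * ℒ) ≤ C2 * (8 * U / ℒ + ε1 * (8 * U)) := by gcongr
    have h2 : C2 * (8 * U / ℒ + ε1 * (8 * U)) = U * (8 * C2 / ℒ) + U * (ε1 * (8 * C2)) := by
      field_simp
    have h3 : U * (1 - ε1 * D2 - 8 * C2 / ℒ) = U * (1 - ε1) - U * (8 * C2 / ℒ) -
        U * (ε1 * (8 * C2)) := by rw [hD2]; ring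
    rw [h3]; linarith
  have hfin : U * (K0 + ε / 2) ≤ (K0 + ε) * (U * (1 - ε1 * D2 - 8 * C2 / ℒ)) := by
    have h1 : (K0 + ε) * (8 * C2 / ℒ) ≤ ε / 4 := by
      have : (K0 + ε) * (8 * C2 / ℒ) = (K0 + ε) * (8 * C2) / ℒ := by ring
      rw [this, div_le_iff₀ hℒ0]
      exact hL0b.trans (mul_le_mul_of_nonneg_left hℒ (by positivity))
    have h2 : (K0 + ε) * (U * (1 - ε1 * D2 - 8 * C2 / ℒ)) = U * ((K0 + ε) -
        (K0 + ε) * (ε1 * D2) - (K0 + ε) * (8 * C2 / ℒ)) := by ring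
    rw [h2]
    refine mul_le_mul_of_nonneg_left ?_ hU0.le
    linarith
  exact hSM.trans (hfin.trans (mul_le_mul_of_nonneg_left hSN hKε.le))

/-- from the height condition -/
theorem cyc_height (L0 η : ℝ) (hη : 0 < η) : ∃ C0 : ℝ, 1 ≤ C0 ∧ ∀ (q : ℕ) (T : ℝ), 1 ≤ q →
    C0 * (1 + Real.sqrt (Real.log q)) ≤ T → L0 ≤ Real.log (q * T) ∧ 1 ≤ T ∧
      4 * Real.sqrt (Real.log (q * T)) ≤ η * T := by
  -- `√(log T) ≤ (η/8) T` for large `T`
  have h1 : ∃ T1 : ℝ, ∀ T : ℝ, T1 ≤ T → Real.sqrt (Real.log T) ≤ η / 8 * T := by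
    refine ⟨max 1 (64 / η ^ 2), fun T hT => ?_⟩
    have hT1 : 1 ≤ T := (le_max_left _ _).trans hT
    have hT2 : 64 / η ^ 2 ≤ T := (le_max_right _ _).trans hT
    have hlog : Real.log T ≤ T := by
      have := Real.log_le_sub_one_of_pos (show 0 < T by linarith)
      linarith
    rw [Real.sqrt_le_left (by positivity)]
    rw [div_le_iff₀ (by positivity)] at hT2
    have h2 : (η / 8 * T) ^ 2 = (T * η ^ 2) * T / 64 := by ring
    rw [h2]
    have h3 : 64 * T ≤ (T * η ^ 2) * T := mul_le_mul_of_nonneg_right hT2 (by linarith)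
    linarith
  obtain ⟨T1, hT1⟩ := h1
  refine ⟨max (max 1 T1) (max (Real.exp L0) (8 / η)), le_max_of_le_left (le_max_left _ _), ?_⟩
  intro q T hq hT
  set C0 := max (max 1 T1) (max (Real.exp L0) (8 / η)) with hC0
  have hC01 : 1 ≤ C0 := le_max_of_le_left (le_max_left _ _)
  have hs := Real.sqrt_nonneg (Real.log q)
  have hTC : C0 ≤ T := by
    refine le_trans ?_ hT
    nlinarith
  have hT1' : T1 ≤ T := ((le_max_right _ _).trans (le_max_left _ _)).trans hTC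
  have hT2 : 1 ≤ T := hC01.trans hTC
  have hTe : Real.exp L0 ≤ T := ((le_max_left _ _).trans (le_max_right _ _)).trans hTC
  have hC08 : 8 / η ≤ C0 := (le_max_right _ _).trans (le_max_right _ _)
  have hq1 : (1 : ℝ) ≤ q := by exact_mod_cast hq
  have hlogq : 0 ≤ Real.log q := Real.log_nonneg hq1
  have hlogT : 0 ≤ Real.log T := Real.log_nonneg hT2
  have hl : Real.log (q * T) = Real.log q + Real.log T :=
    Real.log_mul (by linarith) (by linarith)
  refine ⟨?_, hT2, ?_⟩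
  · rw [hl]
    have : L0 ≤ Real.log T := by
      rw [Real.le_log_iff_exp_le (by linarith)]; exact hTe
    linarith
  · rw [hl]
    have h2 : Real.sqrt (Real.log q + Real.log T) ≤ Real.sqrt (Real.log q) +
        Real.sqrt (Real.log T) := by
      have a1 := Real.sqrt_nonneg (Real.log T)
      rw [Real.sqrt_le_left (by positivity)]
      have e : (Real.sqrt (Real.log q) + Real.sqrt (Real.log T)) ^ 2 = Real.log q + Real.log T +
          2 * (Real.sqrt (Real.log q) * Real.sqrt (Real.log T)) := by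
        rw [add_sq, Real.sq_sqrt hlogq, Real.sq_sqrt hlogT]; ring
      rw [e]
      have := mul_nonneg hs a1
      linarith
    have h3 := hT1 T hT1'
    have h4 : Real.sqrt (Real.log q) ≤ η / 8 * T := by
      have h5 : 8 / η * Real.sqrt (Real.log q) ≤ T := by
        calc 8 / η * Real.sqrt (Real.log q) ≤ C0 * (1 + Real.sqrt (Real.log q)) := by
              refine mul_le_mul hC08 (by linarith) hs (by linarith)
          _ ≤ T := hT
      calc Real.sqrt (Real.log q) = η / 8 * (8 / η * Real.sqrt (Real.log q)) := by field_simp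
        _ ≤ _ := by gcongr
    linarith

end H385
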